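import Pool.Agent.helper80.SG.Spec

/-!
Module RKS of project sg: (MP_b5a345_ag): the sum of the numbers of conditions of the clusters on one component.
-/

set_option autoImplicit false

namespace Pool.Agent.SG

open MvPolynomial Module Pool.Agent.SV

theorem RKS_one (n : ℕ) {C : Type} [DecidableEq C] (s t h v : C) (h1 : s ≠ t) (h2 : h ≠ s) (h3 : h ≠ t) :
    rk (n + 1) (roleOf s t h v) + (if s = v then 1 else 0) =
      3 + 2 * n * (if s = v then 1 else 0) + (if t = v then 1 else 0) + n * (if h = v then 1 else 0) := by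
  unfold roleOf rk
  by_cases hs : v = s
  · subst hs
    simp [h1.symm, h2]
    ring
  · by_cases ht : v = t
    · subst ht
      simp [h1, h3, Ne.symm h1]
    · by_cases hh : v = h
      · subst hh
        simp [hs, ht, Ne.symm hs, Ne.symm ht, h2, h3]
        ring
      · simp [hs, ht, hh, Ne.symm hs, Ne.symm ht, Ne.symm hh]

theorem RKS : RKS_stmt := by
  intro C _ n g src tgt host v hne
  rw [Finset.card_filter, Finset.card_filter, Finset.card_filter, Finset.mul_sum, Finset.mul_sum,
    ← Finset.sum_add_distrib]
  have h1 : 3 * g = ∑ _γ : Fin g, 3 := by simp [mul_comm]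
  rw [h1, ← Finset.sum_add_distrib, ← Finset.sum_add_distrib, ← Finset.sum_add_distrib]
  exact Finset.sum_congr rfl fun γ _ => RKS_one n _ _ _ v (hne γ).1 (hne γ).2.1 (hne γ).2.2

end Pool.Agent.SG
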