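import Pool.Agent.helper3.SG.SpecS

/-!
Module S08 of project sg: (MP_2b8aea_gt): the derived series of a nonabelian CSA group contains pairs of elements that
do not commute.
-/

set_option autoImplicit false

open MeasureTheory Set Metric Filter Topology
open scoped ENNReal NNReal ComplexConjugate commutatorElement

namespace Pool.Agent.SG

theorem S08 : S08_stmt := by
  intro Γ _ hC hN n
  induction n with
  | zero =>
    obtain ⟨x, y, h⟩ := hN
    exact ⟨x, by simp, y, by simp, h⟩
  | succ n ih =>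
    obtain ⟨x, hx, y, hy, hxy⟩ := ih
    have hx1 : x⁻¹ ≠ 1 := by
      intro h
      rw [inv_eq_one] at h
      exact hxy (h ▸ Commute.one_left y)
    have hz : ⁅x, y⁆ ∈ derivedSeries Γ (n + 1) := by
      rw [derivedSeries_succ]
      exact Subgroup.commutator_mem_commutator hx hy
    have hz1 : ⁅x, y⁆ ≠ 1 := fun h => hxy (commutatorElement_eq_one_iff_commute.1 h)
    have hn : (derivedSeries Γ (n + 1)).Normal := inferInstance
    refine ⟨⁅x, y⁆, hz, x * ⁅x, y⁆ * x⁻¹, hn.conj_mem _ hz x, ?_⟩
    intro hcom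
    have h1 : Commute x ⁅x, y⁆ := hC.1 x _ hz1 hcom
    have h2 : Commute x (y * x⁻¹ * y⁻¹) := by
      have h3 : y * x⁻¹ * y⁻¹ = x⁻¹ * ⁅x, y⁆ := by
        rw [commutatorElement_def]
        group
      rw [h3]
      exact ((Commute.refl x).inv_right).mul_right h1
    have h4 : Commute x⁻¹ (y * x⁻¹ * y⁻¹) := h2.inv_left
    have h5 : Commute y x⁻¹ := hC.1 y x⁻¹ hx1 h4
    exact hxy (Commute.inv_right_iff.1 h5).symm

end Pool.Agent.SG
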